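import Pool.Agent.Y706.CH.Stm3

/-!
# Project CH (MP_9b502d_nt): the critical points in the new coordinates
-/

namespace Pool.Agent.Y195.CH

open Pool.Agent.W277.UH Pool.Agent.Y706.CH Finset Polynomial

universe u v

lemma hev_sub {K : Type*} [Field K] (d : ℕ) (p q : K[X]) (c : K) (Z : K × K) :
    hev d (p - C c * q) Z = hev d p Z - c * hev d q Z := by
  unfold hev
  rw [Finset.mul_sum, ← Finset.sum_sub_distrib]
  apply Finset.sum_congr rfl
  intro i _
  rw [coeff_sub, coeff_C_mul]
  ring

lemma hev_mv {K : Type*} [Field K] (d : ℕ) (q : K[X]) (hq : q.natDegree ≤ d) (c : K) (Z : K × K) :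
    hev d (pc d q c) (Y706.CH.mv c Z) = hev d q Z := by
  by_cases h : (Y706.CH.mv c Z).2 = 0
  · have h1 : Y706.CH.mv c Z = (Z.2, 0) := Prod.ext rfl h
    have h2 : Z.1 = c * Z.2 := sub_eq_zero.mp h
    have h3 : Z = Z.2 • ((c, 1) : K × K) := by
      ext
      · rw [h2]
        simp [mul_comm]
      · simp
    rw [h1, hev_zero, pc_coeff d q hq]
    conv_rhs => rw [h3]
    rw [hev_smul, hev_one d q hq]
    ring
  · rw [hev_eval d _ (pc_degree d q c) _ h, pc_eval, ← hev_smul]
    congr 1
    ext
    · simp only [Prod.smul_fst, smul_eq_mul]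
      rw [mul_add, mul_one]
      have : (Y706.CH.mv c Z).2 * (c * ((Y706.CH.mv c Z).1 / (Y706.CH.mv c Z).2)) = c * (Y706.CH.mv c Z).1 := by
        field_simp
      rw [this]
      unfold Y706.CH.mv
      simp
    · simp only [Prod.smul_snd, smul_eq_mul]
      have : (Y706.CH.mv c Z).2 * ((Y706.CH.mv c Z).1 / (Y706.CH.mv c Z).2) = (Y706.CH.mv c Z).1 := by
        field_simp
      rw [this]
      unfold Y706.CH.mv
      simp

lemma pc_eq {K : Type*} [Field K] (d : ℕ) (q : K[X]) (c : K) :
    pc d q c = ∑ i ∈ Finset.range (d + 1), C (q.coeff i) * (C c * X + 1) ^ i * X ^ (d - i) := by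
  unfold pc hc hev
  apply Finset.sum_congr rfl
  intro i _
  rw [coeff_map]
  simp

lemma pc_deriv {K : Type*} [Field K] (d : ℕ) (q : K[X]) (hq : q.natDegree ≤ d) (c y : K)
    (hy : y ≠ 0) (hd : 1 ≤ d) : y * (derivative (pc d q c)).eval y =
      d * (pc d q c).eval y - y ^ (d - 1) * (derivative q).eval ((c * y + 1) / y) := by
  have h1 : (derivative q).eval ((c * y + 1) / y) =
      ∑ i ∈ Finset.range (d + 1), q.coeff i * i * ((c * y + 1) / y) ^ (i - 1) := by
    rw [derivative_eval, sum_over_range' _ _ (d + 1) (by omega)]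
    intro n
    simp
  rw [h1, pc_eq, derivative_sum, eval_finsetSum, eval_finsetSum, Finset.mul_sum, Finset.mul_sum,
    Finset.mul_sum, ← Finset.sum_sub_distrib]
  apply Finset.sum_congr rfl
  intro i hi
  rw [Finset.mem_range] at hi
  rw [derivative_mul, derivative_C_mul, derivative_pow, derivative_X_pow]
  simp only [derivative_add, derivative_mul, derivative_C, derivative_X, derivative_one, eval_add,
    eval_mul, eval_pow, eval_C, eval_X, eval_one, zero_mul, zero_add, mul_one, add_zero,
    map_natCast, eval_natCast]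
  rcases Nat.eq_zero_or_pos i with h0 | h0
  · subst h0
    simp only [Nat.cast_zero, zero_mul, mul_zero, pow_zero, mul_one, zero_add, Nat.sub_zero,
      sub_zero]
    obtain ⟨m, rfl⟩ : ∃ m, d = m + 1 := ⟨d - 1, by omega⟩
    simp only [Nat.add_sub_cancel]
    ring
  · obtain ⟨j, rfl⟩ : ∃ j, i = j + 1 := ⟨i - 1, by omega⟩
    obtain ⟨m, rfl⟩ : ∃ m, d = j + 1 + m := ⟨d - (j + 1), by omega⟩
    have e1 : j + 1 + m - (j + 1) = m := by omega
    have e2 : j + 1 + m - 1 = j + m := by omega
    have e3 : j + 1 - 1 = j := by omega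
    rw [e1, e2, e3, div_pow]
    have e4 : y ^ (j + m) * (q.coeff (j + 1) * ((j + 1 : ℕ) : K) * ((c * y + 1) ^ j / y ^ j)) =
        y ^ m * (q.coeff (j + 1) * ((j + 1 : ℕ) : K) * (c * y + 1) ^ j) := by
      rw [pow_add]
      field_simp
    rw [e4]
    rcases m with _ | m
    · simp only [Nat.cast_zero, zero_mul, mul_zero, pow_zero, mul_one, add_zero]
      push_cast
      ring
    · have e5 : m + 1 - 1 = m := by omega
      rw [e5]
      push_cast
      ring

theorem t_AFC : S_AFC.{u} := by
  intro K _ _ d hd p q hp hq c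
  have hpq : (p - C c * q).natDegree ≤ d :=
    (natDegree_sub_le _ _).trans (max_le hp ((natDegree_C_mul_le _ _).trans hq))
  refine ⟨?_, ?_⟩
  · intro Z
    unfold bK
    rw [hev_mv d q hq, hev_mv d _ hpq, hev_sub]
    rfl
  · rintro Cr ⟨h0, hC⟩
    refine ⟨?_, ?_⟩
    · intro i hi
      apply h0 i
      have h1 := congrArg Prod.fst hi
      have h2 := congrArg Prod.snd hi
      simp only [Y706.CH.mv, Prod.fst_zero, Prod.snd_zero] at h1 h2
      rw [h1, mul_zero, sub_zero] at h2
      exact Prod.ext h2 h1
    · have key : ∀ y : K, y ≠ 0 → (derivative (pc d q c) * pc d (p - C c * q) c - pc d q c *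
          derivative (pc d (p - C c * q) c)).eval y = ∏ i, wd ((y, 1) : K × K) (Y706.CH.mv c (Cr i)) := by
        intro y hy
        have e1 : ∀ i, wd ((y, 1) : K × K) (Y706.CH.mv c (Cr i)) =
            (-y) * wd (((c * y + 1) / y, 1) : K × K) (Cr i) := by
          intro i
          unfold wd Y706.CH.mv
          simp only
          field_simp
          ring
        rw [Finset.prod_congr rfl fun i _ => e1 i, Finset.prod_mul_distrib, ← hC,
          Finset.prod_const, Finset.card_univ, Fintype.card_fin]
        have e2 : (-y) ^ (2 * d - 2) = y ^ (2 * d - 2) :=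
          Even.neg_pow ⟨d - 1, by omega⟩ y
        rw [e2]
        have h1 := pc_deriv d q hq c y hy hd
        have h2 := pc_deriv d _ hpq c y hy hd
        have g1 : (pc d q c).eval y = y ^ d * q.eval ((c * y + 1) / y) := by
          rw [pc_eval, hev_eval d q hq _ hy]
        have g2 : (pc d (p - C c * q) c).eval y = y ^ d * (p - C c * q).eval ((c * y + 1) / y) := by
          rw [pc_eval, hev_eval d _ hpq _ hy]
        apply mul_left_cancel₀ hy
        rw [eval_sub, eval_mul, eval_mul, eval_sub, eval_mul, eval_mul]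
        rw [derivative_sub, derivative_C_mul, eval_sub, eval_mul, eval_C] at h2
        rw [eval_sub, eval_mul, eval_C] at g2
        set x := (c * y + 1) / y with hx
        obtain ⟨m, rfl⟩ : ∃ m, d = m + 1 := ⟨d - 1, by omega⟩
        have e3 : m + 1 - 1 = m := by omega
        have e4 : 2 * (m + 1) - 2 = m + m := by omega
        rw [e3] at h1 h2
        rw [e4, pow_add]
        rw [g1] at h1 ⊢
        rw [g2] at h2 ⊢
        rw [pow_succ] at *
        linear_combination (y ^ m * y * (eval x p - c * eval x q)) * h1 -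
          (y ^ m * y * eval x q) * h2
      have h3 : derivative (pc d q c) * pc d (p - C c * q) c - pc d q c *
          derivative (pc d (p - C c * q) c) =
          ∏ i, (X * C (Y706.CH.mv c (Cr i)).2 - C (Y706.CH.mv c (Cr i)).1) := by
        apply Polynomial.eq_of_infinite_eval_eq
        apply Set.Infinite.mono (s := {y | y ≠ 0})
        · intro y hy
          have hy' : y ≠ 0 := hy
          rw [Set.mem_ofPred_eq, key y hy', eval_prod]
          apply Finset.prod_congr rfl
          intro i _
          rw [eval_sub, eval_mul, eval_X, eval_C, eval_C]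
          unfold wd
          simp
        · exact (Set.finite_singleton (0 : K)).infinite_compl
      intro y
      rw [h3, eval_prod]
      apply Finset.prod_congr rfl
      intro i _
      rw [eval_sub, eval_mul, eval_X, eval_C, eval_C]
      unfold wd
      simp

theorem t_AFA : S_AFA.{u, v} := by
  intro k K _ _ _ d q c A hA i
  rw [pc_eq, finsetSum_coeff]
  apply Submodule.sum_mem
  intro j _
  have h1 : (C (algebraMap k K c) * X + 1 : K[X]) ^ j * X ^ (d - j) =
      ((C c * X + 1 : k[X]) ^ j * X ^ (d - j)).map (algebraMap k K) := by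
    simp
  rw [mul_assoc, coeff_C_mul, h1, coeff_map, mul_comm, ← Algebra.smul_def]
  exact Submodule.smul_mem _ _ (hA j)

end Pool.Agent.Y195.CH
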