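import Pool.Agent.Y706.CH.Stm3

/-!
# Project CH (MP_9b502d_nt): the critical points of a map, points and vectors
-/

namespace Pool.Agent.Y195.CH

open Pool.Agent.W277.UH Pool.Agent.Y706.CH Finset Polynomial

universe u v

lemma pt_none {K : Type*} [Field K] (Z : K × K) (h : Z.2 = 0) : pt Z = none := by
  unfold pt
  exact if_pos h

lemma pt_some {K : Type*} [Field K] (Z : K × K) (h : Z.2 ≠ 0) : pt Z = some (Z.1 / Z.2) := by
  unfold pt
  exact if_neg h

theorem t_PT : S_PT.{u} := by
  intro K _ d hd p q hmax hco Z hZ
  have hp : p.natDegree ≤ d := by rw [← hmax]; exact le_max_left _ _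
  have hq : q.natDegree ≤ d := by rw [← hmax]; exact le_max_right _ _
  by_cases h : Z.2 = 0
  · have h1 : Z = (Z.1, 0) := Prod.ext rfl h
    have hZ1 : Z.1 ≠ 0 := by
      intro h2
      apply hZ
      exact Prod.ext h2 h
    have hb : bK d p q Z = (p.coeff d * Z.1 ^ d, q.coeff d * Z.1 ^ d) := by
      unfold bK
      rw [h1, hev_zero, hev_zero]
    have hlead : p.coeff d ≠ 0 ∨ q.coeff d ≠ 0 := by
      rcases le_total p.natDegree q.natDegree with h | h
      · right
        rw [max_eq_right h] at hmax
        rw [← hmax]
        apply leadingCoeff_ne_zero.mpr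
        rintro rfl
        rw [natDegree_zero] at hmax
        omega
      · left
        rw [max_eq_left h] at hmax
        rw [← hmax]
        apply leadingCoeff_ne_zero.mpr
        rintro rfl
        rw [natDegree_zero] at hmax
        omega
    have hpow : Z.1 ^ d ≠ 0 := pow_ne_zero _ hZ1
    refine ⟨?_, ?_⟩
    · rw [hb]
      intro h2
      have g1 := congrArg Prod.fst h2
      have g2 := congrArg Prod.snd h2
      simp only [Prod.fst_zero, Prod.snd_zero] at g1 g2
      rcases hlead with h3 | h3
      · exact (mul_ne_zero h3 hpow) g1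
      · exact (mul_ne_zero h3 hpow) g2
    · rw [pt_none Z h, hb]
      by_cases hqd : q.coeff d = 0
      · rw [ratP1_none0 p q d hqd, pt_none _ (by simp [hqd])]
      · rw [ratP1_none p q d hqd, pt_some _ (mul_ne_zero hqd hpow)]
        simp only
        rw [mul_div_mul_right _ _ hpow]
  · have hb : bK d p q Z = (Z.2 ^ d * p.eval (Z.1 / Z.2), Z.2 ^ d * q.eval (Z.1 / Z.2)) := by
      unfold bK
      rw [hev_eval d p hp Z h, hev_eval d q hq Z h]
    have hpow : Z.2 ^ d ≠ 0 := pow_ne_zero _ h
    refine ⟨?_, ?_⟩
    · rw [hb]
      intro h2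
      have g1 := congrArg Prod.fst h2
      have g2 := congrArg Prod.snd h2
      simp only [Prod.fst_zero, Prod.snd_zero] at g1 g2
      have k1 := (mul_eq_zero.mp g1).resolve_left hpow
      have k2 := (mul_eq_zero.mp g2).resolve_left hpow
      obtain ⟨a, b, hab⟩ := hco
      have := congrArg (eval (Z.1 / Z.2)) hab
      rw [eval_add, eval_mul, eval_mul, k1, k2, mul_zero, mul_zero, add_zero,
        eval_one] at this
      exact zero_ne_one this
    · rw [pt_some Z h, hb]
      by_cases hqx : q.eval (Z.1 / Z.2) = 0
      · rw [ratP1_some0 p q d _ hqx, pt_none _ (by simp [hqx])]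
      · rw [ratP1_some p q d _ hqx, pt_some _ (mul_ne_zero hpow hqx)]
        simp only
        rw [mul_div_mul_left _ _ hpow]

lemma der_zero {K : Type*} [Field K] [CharZero K] (p : K[X]) (h : p ∣ derivative p) :
    p.natDegree = 0 := by
  by_contra h0
  have h1 := natDegree_derivative_lt h0
  have h2 := Polynomial.eq_zero_of_dvd_of_natDegree_lt h h1
  exact h0 (derivative_eq_zero.mp h2)

lemma wr_ne {K : Type*} [Field K] [CharZero K] (p q : K[X]) (hco : IsCoprime p q)
    (hd : 1 ≤ max p.natDegree q.natDegree) : derivative p * q - p * derivative q ≠ 0 := by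
  intro h
  have h1 : derivative p * q = p * derivative q := sub_eq_zero.mp h
  have h2 : p ∣ derivative p := hco.dvd_of_dvd_mul_right ⟨derivative q, h1⟩
  have h3 : q ∣ derivative q := by
    apply hco.symm.dvd_of_dvd_mul_left
    exact ⟨derivative p, by rw [← h1, mul_comm]⟩
  rw [der_zero p h2, der_zero q h3] at hd
  simp at hd

lemma wr_deg {K : Type*} [Field K] (d : ℕ) (hd : 1 ≤ d) (p q : K[X]) (hp : p.natDegree ≤ d)
    (hq : q.natDegree ≤ d) : (derivative p * q - p * derivative q).natDegree ≤ 2 * d - 2 := by
  have hp' : (derivative p).natDegree ≤ d - 1 :=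
    (natDegree_derivative_le p).trans (Nat.sub_le_sub_right hp 1)
  have hq' : (derivative q).natDegree ≤ d - 1 :=
    (natDegree_derivative_le q).trans (Nat.sub_le_sub_right hq 1)
  have h1 : (derivative p * q - p * derivative q).natDegree ≤ 2 * d - 1 := by
    refine (natDegree_sub_le _ _).trans (max_le ?_ ?_)
    · refine natDegree_mul_le.trans ?_
      omega
    · refine natDegree_mul_le.trans ?_
      omega
  have h2 : (derivative p * q - p * derivative q).coeff (2 * d - 1) = 0 := by
    rw [coeff_sub]
    have e1 : 2 * d - 1 = (d - 1) + d := by omega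
    have e2 : (d - 1) + d = d + (d - 1) := by omega
    have g1 : (derivative p * q).coeff (2 * d - 1) = (derivative p).coeff (d - 1) * q.coeff d := by
      rw [e1]
      exact coeff_mul_add_eq_of_natDegree_le hp' hq
    have g2 : (p * derivative q).coeff (2 * d - 1) = p.coeff d * (derivative q).coeff (d - 1) := by
      rw [e1, e2]
      exact coeff_mul_add_eq_of_natDegree_le hp hq'
    rw [g1, g2, coeff_derivative, coeff_derivative]
    have e3 : d - 1 + 1 = d := by omega
    rw [e3]
    ring
  have h3 := natDegree_le_pred h1 h2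
  have e : 2 * d - 1 - 1 = 2 * d - 2 := by omega
  rwa [e] at h3

theorem t_CRT : S_CRT.{u} := by
  intro K _ _ d hd p q hmax hco hsp
  have hp : p.natDegree ≤ d := by rw [← hmax]; exact le_max_left _ _
  have hq : q.natDegree ≤ d := by rw [← hmax]; exact le_max_right _ _
  have hW0 := wr_ne p q hco (by omega)
  have hWd := wr_deg d (by omega) p q hp hq
  set W := derivative p * q - p * derivative q with hW
  set l := W.roots.toList with hl
  have hlen : l.length = W.natDegree := by
    rw [hl, Multiset.length_toList]
    exact hsp.natDegree_eq_card_roots.symm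
  set lc := W.leadingCoeff with hlc
  have hlc0 : lc ≠ 0 := leadingCoeff_ne_zero.mpr hW0
  let s : ℕ → K := fun i => if i = 0 then lc else 1
  let Z : ℕ → K × K := fun i => if i < l.length then (l.getD i 0, 1) else (-1, 0)
  have hs : ∀ i, s i ≠ 0 := by
    intro i
    simp only [s]
    split_ifs
    · exact hlc0
    · exact one_ne_zero
  have hZ1 : ∀ i, i < l.length → Z i = (l.getD i 0, 1) := by
    intro i hi
    simp only [Z]
    rw [if_pos hi]
  have hZ2 : ∀ i, ¬ i < l.length → Z i = (-1, 0) := by
    intro i hi
    simp only [Z]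
    rw [if_neg hi]
  have hn : l.length ≤ 2 * d - 2 := by rw [hlen]; exact hWd
  refine ⟨fun i => s i • Z i, ⟨?_, ?_⟩, ?_, ?_⟩
  · intro i hi
    have h1 := (smul_eq_zero.mp hi).resolve_left (hs _)
    by_cases h : (i : ℕ) < l.length
    · rw [hZ1 _ h] at h1
      have := congrArg Prod.snd h1
      simp at this
    · rw [hZ2 _ h] at h1
      have := congrArg Prod.fst h1
      simp at this
  · intro x
    have e1 : ∏ i : Fin (2 * d - 2), wd ((x, 1) : K × K) (s i • Z i) =
        ∏ i ∈ Finset.range (2 * d - 2), (s i * wd ((x, 1) : K × K) (Z i)) := by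
      rw [Finset.prod_range]
      apply Finset.prod_congr rfl
      intro i _
      rw [wd_smul_right]
    rw [e1, Finset.prod_mul_distrib]
    have e2 : ∏ i ∈ Finset.range (2 * d - 2), s i = lc := by
      rw [Finset.prod_eq_single 0]
      · simp [s]
      · intro i _ hi
        simp [s, hi]
      · intro h
        exact absurd (Finset.mem_range.mpr (by omega)) h
    have e3 : ∏ i ∈ Finset.range (2 * d - 2), wd ((x, 1) : K × K) (Z i) =
        ∏ i ∈ Finset.range l.length, (x - l.getD i 0) := by
      have e31 : ∏ i ∈ Finset.range l.length, wd ((x, 1) : K × K) (Z i) =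
          ∏ i ∈ Finset.range (2 * d - 2), wd ((x, 1) : K × K) (Z i) := by
        apply Finset.prod_subset
        · intro i hi
          rw [Finset.mem_range] at hi ⊢
          omega
        · intro i _ hi
          rw [Finset.mem_range] at hi
          rw [hZ2 i hi]
          unfold wd
          simp
      rw [← e31]
      apply Finset.prod_congr rfl
      intro i hi
      rw [Finset.mem_range] at hi
      rw [hZ1 i hi]
      unfold wd
      simp
    have e4 : ∏ i ∈ Finset.range l.length, (x - l.getD i 0) = (l.map fun a => x - a).prod := by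
      rw [← Fin.prod_univ_fun_getElem l (fun a => x - a), Finset.prod_range]
      apply Finset.prod_congr rfl
      intro i _
      rw [List.getD_eq_getElem _ _ i.2]
    rw [e2, e3, e4]
    have e5 := hsp.eq_prod_roots
    rw [← hW]
    have e7 : W.eval x = (C W.leadingCoeff *
        (Multiset.map (fun x => X - C x) W.roots).prod).eval x := congrArg (eval x) e5
    rw [e7, eval_mul, eval_C, eval_multiset_prod, Multiset.map_map]
    congr 1
    have e6 : W.roots = (l : Multiset K) := by rw [hl, Multiset.coe_toList]
    rw [e6, Multiset.map_coe, Multiset.prod_coe]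
    congr 1
    apply List.map_congr_left
    intro a _
    simp
  · intro r hr
    have h1 : r ∈ l := by
      rw [hl, Multiset.mem_toList, mem_roots hW0]
      exact hr
    obtain ⟨n, hn1, hn2⟩ := List.mem_iff_getElem.mp h1
    refine ⟨⟨n, by omega⟩, ?_⟩
    simp only
    rw [hZ1 n hn1, List.getD_eq_getElem _ _ hn1, hn2]
    rw [pt_some]
    · simp only [Prod.smul_fst, Prod.smul_snd, smul_eq_mul, mul_one]
      rw [mul_div_cancel_left₀ _ (hs n)]
    · simp only [Prod.smul_snd, smul_eq_mul, mul_one]
      exact hs n
  · intro h0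
    have h1 : W.natDegree ≠ 2 * d - 2 := by
      intro h2
      rw [← h2] at h0
      exact hlc0 h0
    have h2 : l.length < 2 * d - 2 := by
      rw [hlen]
      omega
    refine ⟨⟨l.length, h2⟩, ?_⟩
    simp only
    rw [hZ2 _ (lt_irrefl _)]
    apply pt_none
    simp

end Pool.Agent.Y195.CH
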