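import Pool.Agent.Y706.CH.Stm4

/-!
# Project CH (MP_9b502d_nt): critical points over a subfield, field extensions of transcendence
degree one
-/

namespace Pool.Agent.Y195.CH

open Pool.Agent.W277.UH Pool.Agent.Y706.CH Finset Polynomial

universe u v

theorem t_NRM : S_NRM.{u, v} := by
  classical
  intro E L _ _ _ _ d hd p q V hV hx
  obtain ⟨hV0, hVW⟩ := hV
  set φ := algebraMap E L with hφ
  have hinj : Function.Injective φ := φ.injective
  have hex : ∀ i, ∃ (Z : E × E) (s : L), s ≠ 0 ∧ Z ≠ 0 ∧ V i = s • ((φ Z.1, φ Z.2) : L × L) := by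
    intro i
    by_cases h : (V i).2 = 0
    · refine ⟨(1, 0), (V i).1, ?_, ?_, ?_⟩
      · intro h1
        exact hV0 i (Prod.ext h1 h)
      · intro h1
        exact one_ne_zero (congrArg Prod.fst h1)
      · ext
        · simp
        · simp [h]
    · obtain ⟨x, hx⟩ := hx i h
      refine ⟨(x, 1), (V i).2, h, ?_, ?_⟩
      · intro h1
        exact one_ne_zero (congrArg Prod.snd h1)
      · ext
        · simp only [Prod.smul_fst, smul_eq_mul]
          rw [hx]
          field_simp
        · simp
  choose Z s hs hZ hVZ using hex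
  set W := derivative p * q - p * derivative q with hW
  have hmap : derivative (p.map φ) * (q.map φ) - (p.map φ) * derivative (q.map φ) = W.map φ := by
    rw [hW, Polynomial.map_sub, Polynomial.map_mul, Polynomial.map_mul, derivative_map,
      derivative_map]
  have h1 : ∀ x : E, φ (W.eval x) = (∏ i, s i) * φ (∏ i, wd ((x, 1) : E × E) (Z i)) := by
    intro x
    have h2 := hVW (φ x)
    rw [hmap, eval_map_apply] at h2
    rw [h2, map_prod, ← Finset.prod_mul_distrib]
    apply Finset.prod_congr rfl
    intro i _
    rw [hVZ i, wd_smul_right]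
    congr 1
    unfold wd
    simp
  obtain ⟨x0, hx0⟩ : ∃ x : E, ∏ i, wd ((x, 1) : E × E) (Z i) ≠ 0 := by
    by_contra hcon
    push Not at hcon
    have h2 : ∏ i, (X * C (Z i).2 - C (Z i).1) = (0 : E[X]) := by
      apply Polynomial.funext
      intro x
      rw [eval_prod, eval_zero, ← hcon x]
      apply Finset.prod_congr rfl
      intro i _
      rw [eval_sub, eval_mul, eval_X, eval_C, eval_C]
      unfold wd
      simp
    rw [Finset.prod_eq_zero_iff] at h2
    obtain ⟨i, _, hi⟩ := h2
    apply hZ i
    have g1 := congrArg (fun f : E[X] => f.coeff 0) hi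
    have g2 := congrArg (fun f : E[X] => f.coeff 1) hi
    simp only [coeff_sub, coeff_X_mul_zero, coeff_C_zero, coeff_zero, zero_sub,
      neg_eq_zero] at g1
    simp only [coeff_sub, coeff_zero] at g2
    rw [coeff_C_succ, sub_zero] at g2
    have g3 : (X * C (Z i).2 : E[X]).coeff 1 = (Z i).2 := by
      have := coeff_X_mul (C (Z i).2) 0
      rw [this, coeff_C_zero]
    rw [g3] at g2
    exact Prod.ext g1 g2
  set σ : E := W.eval x0 / ∏ i, wd ((x0, 1) : E × E) (Z i) with hσ
  have hσ1 : φ σ = ∏ i, s i := by
    rw [hσ, map_div₀, h1, mul_div_assoc, div_self, mul_one]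
    exact fun h => hx0 ((map_eq_zero φ).mp h)
  have hσ0 : σ ≠ 0 := by
    intro h
    rw [h, map_zero] at hσ1
    exact (Finset.prod_ne_zero_iff.mpr fun i _ => hs i) hσ1.symm
  have h3 : ∀ x : E, W.eval x = σ * ∏ i, wd ((x, 1) : E × E) (Z i) := by
    intro x
    apply hinj
    rw [h1, map_mul, hσ1]
  let c : Fin (2 * d - 2) → E := fun i => if i.val = 0 then σ else 1
  have hc : ∀ i, c i ≠ 0 := by
    intro i
    simp only [c]
    split_ifs
    · exact hσ0
    · exact one_ne_zero
  have hcp : ∏ i, c i = σ := by
    rw [Finset.prod_eq_single (⟨0, by omega⟩ : Fin (2 * d - 2))]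
    · simp [c]
    · intro i _ hi
      have : i.val ≠ 0 := fun h => hi (Fin.ext h)
      simp [c, this]
    · intro h
      exact absurd (Finset.mem_univ _) h
  refine ⟨fun i => c i • Z i, ⟨?_, ?_⟩, ?_⟩
  · intro i hi
    exact hZ i ((smul_eq_zero.mp hi).resolve_left (hc i))
  · intro x
    rw [← hW, h3, ← hcp, ← Finset.prod_mul_distrib]
    apply Finset.prod_congr rfl
    intro i _
    rw [wd_smul_right]
  · intro i
    refine ⟨φ (c i) * (s i)⁻¹, mul_ne_zero ((map_ne_zero φ).mpr (hc i)) (inv_ne_zero (hs i)), ?_⟩
    rw [hVZ i, smul_smul, mul_assoc, inv_mul_cancel₀ (hs i), mul_one]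
    ext
    · simp
    · simp

theorem t_FDA : S_FDA.{u, v} := by
  intro k E _ _ _ _ _ _
  set φ : RatFunc k →ₐ[k] E := IsScalarTower.toAlgHom k (RatFunc k) E with hφ
  set t : E := φ RatFunc.X with ht
  refine ⟨t, ?_, ?_⟩
  · intro hal
    exact RatFunc.transcendental_X
      ((isAlgebraic_algHom_iff φ φ.toRingHom.injective).mp hal)
  · have h1 : ∀ r : RatFunc k, φ r ∈ IntermediateField.adjoin k {t} := by
      intro r
      have h2 : r ∈ IntermediateField.adjoin k {(RatFunc.X : RatFunc k)} := by
        rw [RatFunc.adjoin_X]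
        exact IntermediateField.mem_top
      have h3 : φ r ∈ (IntermediateField.adjoin k {(RatFunc.X : RatFunc k)}).map φ :=
        ⟨r, h2, rfl⟩
      rw [IntermediateField.adjoin_map, Set.image_singleton] at h3
      exact h3
    let ψ : RatFunc k →+* IntermediateField.adjoin k {t} :=
      φ.toRingHom.codRestrict (IntermediateField.adjoin k {t}).toSubring h1
    let _ : Algebra (RatFunc k) (IntermediateField.adjoin k {t}) := ψ.toAlgebra
    have : IsScalarTower (RatFunc k) (IntermediateField.adjoin k {t}) E := by
      apply IsScalarTower.of_algebraMap_eq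
      intro r
      rfl
    exact Module.Finite.of_restrictScalars_finite (RatFunc k) (IntermediateField.adjoin k {t}) E

theorem t_HTA : S_HTA.{u, v} := by
  intro k L _ _ _ t ht
  refine ⟨?_, ?_⟩
  · intro c hc
    by_contra h0
    have : FiniteDimensional (IntermediateField.adjoin k {c}) L :=
      FiniteDimensional.of_finrank_pos (Nat.pos_of_ne_zero h0)
    have h1 : Algebra.IsAlgebraic k (IntermediateField.adjoin k {c}) :=
      IntermediateField.isAlgebraic_adjoin_simple hc.isIntegral
    have h2 : Algebra.IsAlgebraic (IntermediateField.adjoin k {c}) L :=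
      Algebra.IsAlgebraic.of_finite _ _
    have h3 : Algebra.IsAlgebraic k L :=
      Algebra.IsAlgebraic.trans k (IntermediateField.adjoin k {c}) L
    exact ht (h3.isAlgebraic t)
  · intro c x y hx hy
    have h1 : IntermediateField.adjoin k {y} = IntermediateField.adjoin k {x} := by
      apply le_antisymm
      · rw [IntermediateField.adjoin_simple_le_iff, hy]
        exact add_mem (IntermediateField.algebraMap_mem _ c)
          (inv_mem (IntermediateField.mem_adjoin_simple_self k x))
      · rw [IntermediateField.adjoin_simple_le_iff]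
        have h2 : x = (y - algebraMap k L c)⁻¹ := by
          rw [hy, add_sub_cancel_left, inv_inv]
        rw [h2]
        exact inv_mem (sub_mem (IntermediateField.mem_adjoin_simple_self k y)
          (IntermediateField.algebraMap_mem _ c))
    rw [h1]

end Pool.Agent.Y195.CH
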